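import Mathlib

/-!
# The uniform convergence theorem for slowly varying functions
-/

namespace KU

open Filter MeasureTheory Set Topology

/-- For a measurable function `g` with `g (y + u) - g y → 0` for all `u` the convergence is uniform
for `u` in bounded intervals. -/
theorem uniform_add {g : ℝ → ℝ} (hg : Measurable g)
    (h : ∀ u, Tendsto (fun y => g (y + u) - g y) atTop (𝓝 0)) {A ε : ℝ} (hA : 0 < A)
    (hε : 0 < ε) : ∃ Y : ℝ, ∀ y, Y ≤ y → ∀ u ∈ Icc 0 A, |g (y + u) - g y| ≤ ε := by
  by_contra hcon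
  push Not at hcon
  choose y hy u hu hyu using fun n : ℕ => hcon (n : ℝ)
  have hyT : Tendsto y atTop atTop := tendsto_atTop_mono hy tendsto_natCast_atTop_atTop
  have hyuT : Tendsto (fun n => y n + u n) atTop atTop :=
    tendsto_atTop_mono (fun n => by linarith [(hu n).1, hy n] : ∀ n : ℕ, (n : ℝ) ≤ y n + u n)
      tendsto_natCast_atTop_atTop
  have key : ∀ z : ℕ → ℝ, Tendsto z atTop atTop → ∃ N, ∀ n ≥ N,
      ENNReal.ofReal (3 * A / 2) <
      volume {v | v ∈ Icc 0 (2 * A) ∧ ∀ m ≥ n, |g (z m + v) - g (z m)| ≤ ε / 2} := by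
    intro z hz
    set V : ℕ → Set ℝ := fun n => {v | v ∈ Icc 0 (2 * A) ∧ ∀ m ≥ n,
      |g (z m + v) - g (z m)| ≤ ε / 2} with hV
    have hmono : Monotone V := by
      intro a b hab v hv
      exact ⟨hv.1, fun m hm => hv.2 m (hab.trans hm)⟩
    have hun : ⋃ n, V n = Icc 0 (2 * A) := by
      apply subset_antisymm
      · exact iUnion_subset fun n v hv => hv.1
      · intro v hv
        have h1 : Tendsto (fun m => |g (z m + v) - g (z m)|) atTop (𝓝 |0|) :=
          ((h v).comp hz).abs
        rw [abs_zero] at h1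
        obtain ⟨n, hn⟩ := eventually_atTop.mp (h1.eventually_le_const (by linarith : 0 < ε / 2))
        exact mem_iUnion.mpr ⟨n, hv, hn⟩
    have hlim := tendsto_measure_iUnion_atTop (μ := volume) hmono
    rw [hun, Real.volume_Icc] at hlim
    have hlt : ENNReal.ofReal (3 * A / 2) < ENNReal.ofReal (2 * A - 0) := by
      rw [ENNReal.ofReal_lt_ofReal_iff (by linarith)]
      linarith
    exact eventually_atTop.mp (hlim.eventually_const_lt hlt)
  obtain ⟨N1, hN1⟩ := key y hyT
  obtain ⟨N2, hN2⟩ := key (fun n => y n + u n) hyuT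
  set n := max N1 N2 with hn
  have h1 := hN1 n (le_max_left _ _)
  have h2 := hN2 n (le_max_right _ _)
  set V := {v | v ∈ Icc 0 (2 * A) ∧ ∀ m ≥ n, |g (y m + v) - g (y m)| ≤ ε / 2} with hV
  set W := {v | v ∈ Icc 0 (2 * A) ∧ ∀ m ≥ n, |g (y m + u m + v) - g (y m + u m)| ≤ ε / 2} with hW
  set W' := (fun v => v + - u n) ⁻¹' W with hW'
  have hmeas : ∀ a : ℝ, Measurable fun v => |g (a + v) - g a| := fun a =>
    ((hg.comp (measurable_const_add a)).sub_const _).abs
  have hWm : MeasurableSet W := by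
    have e : W = Icc 0 (2 * A) ∩
        ⋂ m, ⋂ _ : m ≥ n, {v | |g (y m + u m + v) - g (y m + u m)| ≤ ε / 2} := by
      ext v
      simp only [hW, Set.mem_ofPred_eq, Set.mem_inter_iff, Set.mem_iInter]
    rw [e]
    exact measurableSet_Icc.inter (MeasurableSet.iInter fun m => MeasurableSet.iInter fun _ =>
      measurableSet_le (hmeas _) measurable_const)
  have hW'v : volume W' = volume W := measure_preimage_add_right volume (- u n) W
  have hW'm : MeasurableSet W' := hWm.preimage (measurable_add_const _)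
  have hdis : Disjoint V W' := by
    rw [Set.disjoint_left]
    intro v hv hv'
    have e1 := hv.2 n le_rfl
    have e2 := hv'.2 n le_rfl
    rw [show y n + u n + (v + - u n) = y n + v by ring] at e2
    have e3 := hyu n
    rw [abs_le] at e1 e2
    rcases lt_abs.mp e3 with e3 | e3
    · linarith [e1.1, e1.2, e2.1, e2.2]
    · linarith [e1.1, e1.2, e2.1, e2.2]
  have hsub : V ∪ W' ⊆ Icc 0 (3 * A) := by
    rintro v (hv | hv)
    · exact ⟨hv.1.1, by linarith [hv.1.2]⟩
    · have e1 : 0 ≤ v + - u n := hv.1.1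
      have e2 : v + - u n ≤ 2 * A := hv.1.2
      have e3 := (hu n).1
      have e4 := (hu n).2
      exact ⟨by linarith, by linarith⟩
  have h3 := measure_mono (μ := volume) hsub
  rw [measure_union hdis hW'm, hW'v, Real.volume_Icc, sub_zero] at h3
  have h4 : ENNReal.ofReal (3 * A) = ENNReal.ofReal (3 * A / 2) + ENNReal.ofReal (3 * A / 2) := by
    rw [← ENNReal.ofReal_add (by linarith) (by linarith)]
    congr 1
    ring
  rw [h4] at h3
  exact absurd (ENNReal.add_lt_add h1 h2) (not_lt.mpr h3)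

/-- Karamata's uniform convergence theorem: for a measurable slowly varying function `f` the
convergence of `f (l x) / f x` to `1` is uniform for `l` in compact intervals. -/
theorem karamata {f : ℝ → ℝ} (hf : Measurable f) (hpos : ∀ x, 0 < x → 0 < f x)
    (hsv : ∀ l : ℝ, 0 < l → Tendsto (fun x => f (l * x) / f x) atTop (𝓝 1)) (M : ℝ) {ε : ℝ}
    (hε : 0 < ε) : ∃ X : ℝ, 0 < X ∧ ∀ x, X ≤ x → ∀ l ∈ Icc 1 M,
      |Real.log (f (l * x)) - Real.log (f x)| ≤ ε := by
  have hg : Measurable fun y => Real.log (f (Real.exp y)) :=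
    Real.measurable_log.comp (hf.comp Real.measurable_exp)
  have h : ∀ u, Tendsto (fun y => Real.log (f (Real.exp (y + u))) - Real.log (f (Real.exp y)))
      atTop (𝓝 0) := by
    intro u
    have h1 := (hsv (Real.exp u) (Real.exp_pos u)).comp Real.tendsto_exp_atTop
    have h2 := (Real.continuousAt_log one_ne_zero).tendsto.comp h1
    rw [Real.log_one] at h2
    refine h2.congr fun y => ?_
    simp only [Function.comp]
    rw [Real.log_div, Real.exp_add, mul_comm]
    · exact (hpos _ (mul_pos (Real.exp_pos _) (Real.exp_pos _))).ne'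
    · exact (hpos _ (Real.exp_pos _)).ne'
  obtain ⟨Y, hY⟩ := uniform_add hg h (A := Real.log (max M 2))
    (Real.log_pos (lt_of_lt_of_le one_lt_two (le_max_right _ _))) hε
  refine ⟨Real.exp Y, Real.exp_pos Y, fun x hx l hl => ?_⟩
  have hx0 : 0 < x := (Real.exp_pos Y).trans_le hx
  have hl0 : 0 < l := zero_lt_one.trans_le hl.1
  have h1 := hY (Real.log x) (by rwa [Real.le_log_iff_exp_le hx0]) (Real.log l)
    ⟨Real.log_nonneg hl.1, Real.log_le_log hl0 (hl.2.trans (le_max_left _ _))⟩
  rw [Real.exp_add, Real.exp_log hx0, Real.exp_log hl0, mul_comm] at h1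
  exact h1

end KU
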